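import Pool.Agent.Run7.h670.MY.StmD

/-! # Piece D_PLANE of project MY (helper670), by helper865 -/

set_option autoImplicit false

open MeasureTheory Set
open scoped ENNReal RealInnerProductSpace

namespace Run7.h865.MY

open Pool.Agent.Run7.h670.MY

theorem k_meas (d : ℕ) : Measurable fun z : V d × V d => ENNReal.ofReal (‖z.1 - z.2‖ ^ 2)⁻¹ := by
  fun_prop

/-- the energy of a measure with a density -/
theorem en_withDensity {d : ℕ} {ρ : V d → ℝ≥0∞} (hρ : Measurable ρ) :
    en (volume.withDensity ρ) = rieszD ρ := by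
  unfold en rieszD
  have hk : ∀ x : V d, Measurable fun y : V d => ENNReal.ofReal (‖x - y‖ ^ 2)⁻¹ := fun x =>
    by fun_prop
  have h1 : ∀ x : V d, ∫⁻ y, ENNReal.ofReal (‖x - y‖ ^ 2)⁻¹ ∂(volume.withDensity ρ) =
      ∫⁻ y, ρ y * ENNReal.ofReal (‖x - y‖ ^ 2)⁻¹ := by
    intro x
    rw [lintegral_withDensity_eq_lintegral_mul _ hρ (hk x)]
    rfl
  simp only [h1]
  have h2 : Measurable fun x : V d => ∫⁻ y, ρ y * ENNReal.ofReal (‖x - y‖ ^ 2)⁻¹ := by
    have h3 : Measurable (Function.uncurry fun x y : V d => ρ y * ENNReal.ofReal (‖x - y‖ ^ 2)⁻¹) :=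
      (hρ.comp measurable_snd).mul (k_meas d)
    exact h3.lintegral_prod_right
  rw [lintegral_withDensity_eq_lintegral_mul _ hρ h2]
  refine lintegral_congr fun x => ?_
  simp only [Pi.mul_apply]
  have h4 : Measurable fun y : V d => ρ y * ENNReal.ofReal (‖x - y‖ ^ 2)⁻¹ := hρ.mul (hk x)
  rw [← lintegral_const_mul _ h4]
  refine lintegral_congr fun y => ?_
  rw [mul_assoc]

theorem t_D_PLANE (hR : D_RED) (hD : S_DIR) (hC : S_CS) : D_PLANE := by
  intro d hd ρ hρ hfin
  obtain ⟨μ, hμ⟩ : ∃ μ : Measure (V d), μ = volume.withDensity ρ := ⟨_, rfl⟩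
  have hμf : IsFiniteMeasure μ := by
    rw [hμ]
    exact isFiniteMeasure_withDensity hfin
  obtain ⟨S, hS⟩ := hR d hd μ hμf
  obtain ⟨T, hT⟩ : ∃ T : V d →L[ℝ] V 3, T = ContinuousLinearMap.adjoint S.toContinuousLinearMap :=
    ⟨_, rfl⟩
  rw [← hT] at hS
  -- `T` is a left inverse of `S`
  have hTS : ∀ y : V 3, T (S y) = y := by
    intro y
    have h1 : ContinuousLinearMap.adjoint S.toContinuousLinearMap ∘L S.toContinuousLinearMap = 1 :=
      (ContinuousLinearMap.norm_map_iff_adjoint_comp_self _).mp fun x => S.norm_map x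
    have h2 := congrArg (fun A : V 3 →L[ℝ] V 3 => A y) h1
    rw [hT]
    exact h2
  have hsur : Function.Surjective T := fun y => ⟨S y, hTS y⟩
  have hTm : Measurable T := T.continuous.measurable
  have hac : (volume : Measure (V d)).map T ≪ volume := by
    have h := (T : V d →ₗ[ℝ] V 3).exists_map_addHaar_eq_smul_addHaar
      (volume : Measure (V d)) (volume : Measure (V 3)) hsur
    obtain ⟨c, -, hc⟩ := h
    have hc' : (volume : Measure (V d)).map T = c • volume := hc
    rw [hc']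
    exact Measure.smul_absolutelyContinuous
  have hac3 : μ.map T ≪ volume := by
    refine Measure.AbsolutelyContinuous.trans ?_ hac
    rw [hμ]
    exact (withDensity_absolutelyContinuous _ _).map hTm
  have : IsFiniteMeasure (μ.map T) := Measure.isFiniteMeasure_map μ T
  obtain ⟨f, hf⟩ : ∃ f : V 3 → ℝ≥0∞, f = (μ.map T).rnDeriv volume := ⟨_, rfl⟩
  have hfm : Measurable f := by
    rw [hf]
    exact Measure.measurable_rnDeriv _ _
  have hf3 : volume.withDensity f = μ.map T := by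
    rw [hf]
    exact Measure.withDensity_rnDeriv_eq _ _ hac3
  have he3 : riesz f = en (μ.map T) := by
    rw [← hf3, en_withDensity hfm]
    rfl
  obtain ⟨e, he, hle⟩ := hD f hfm
  -- an orthonormal basis with the last vector `e`
  obtain ⟨B, hB⟩ : ∃ B : OrthonormalBasis (Fin 3) ℝ (V 3), B 2 = e := by
    have hc : Module.finrank ℝ (V 3) = Fintype.card (Fin 3) := by simp
    have ho : Orthonormal ℝ (Set.domRestrict ({2} : Set (Fin 3)) (fun _ : Fin 3 => e)) := by
      constructor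
      · intro i
        exact he
      · intro i j hij
        exact absurd (Subtype.ext (i.2.trans j.2.symm)) hij
    obtain ⟨B, hB⟩ := ho.exists_orthonormalBasis_extension_of_card_eq hc
    exact ⟨B, hB 2 rfl⟩
  have hB3 : Orthonormal ℝ ![B 0, B 1, e] := by
    have h : ![B 0, B 1, e] = B := by
      funext i
      fin_cases i <;> simp [hB]
    rw [h]
    exact B.orthonormal
  have hB2 : Orthonormal ℝ ![S (B 0), S (B 1)] := by
    have h1 : Orthonormal ℝ ((B : Fin 3 → V 3) ∘ ![0, 1]) :=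
      B.orthonormal.comp _ (by decide)
    have h2 := h1.comp_linearIsometry S
    have h3 : ![S (B 0), S (B 1)] = S ∘ ((B : Fin 3 → V 3) ∘ ![0, 1]) := by
      funext i
      fin_cases i <;> rfl
    rw [h3]
    exact h2
  refine ⟨S (B 0), S (B 1), lineEn f e, hB2, ?_, ?_⟩
  · have hd3 : (3 : ℝ) ≤ d := by exact_mod_cast hd
    calc lineEn f e ≤ ENNReal.ofReal (2 * Real.pi)⁻¹ * riesz f := hle
      _ ≤ ENNReal.ofReal (2 * Real.pi)⁻¹ * (ENNReal.ofReal ((d : ℝ) - 2) * en μ) := by
          rw [he3]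
          gcongr
      _ = ENNReal.ofReal (((d : ℝ) - 2) / (2 * Real.pi)) * rieszD ρ := by
          rw [hμ, en_withDensity hρ, ← mul_assoc, ← ENNReal.ofReal_mul (by positivity)]
          congr 2
          rw [div_eq_inv_mul]
  · intro g hg
    have hgm : ∀ (D : ℕ) (a b : V D), Measurable fun x : V D => g ⟪a, x⟫ ⟪b, x⟫ := by
      intro D a b
      have h1 : Measurable fun x : V D => (⟪a, x⟫, ⟪b, x⟫) :=
        (Measurable.const_inner measurable_id).prodMk (Measurable.const_inner measurable_id)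
      exact hg.comp h1
    have hin : ∀ (a : V 3) (x : V d), ⟪S a, x⟫ = ⟪a, T x⟫ := by
      intro a x
      rw [hT, ContinuousLinearMap.adjoint_inner_right]
      rfl
    have h1 : ∫⁻ x, ρ x * g ⟪S (B 0), x⟫ ⟪S (B 1), x⟫ = ∫⁻ y, f y * g ⟪B 0, y⟫ ⟪B 1, y⟫ := by
      have e1 : ∫⁻ x, ρ x * g ⟪S (B 0), x⟫ ⟪S (B 1), x⟫ =
          ∫⁻ x, g ⟪S (B 0), x⟫ ⟪S (B 1), x⟫ ∂μ := by
        rw [hμ, lintegral_withDensity_eq_lintegral_mul _ hρ (hgm d _ _)]
        rfl
      have e2 : ∫⁻ y, f y * g ⟪B 0, y⟫ ⟪B 1, y⟫ = ∫⁻ y, g ⟪B 0, y⟫ ⟪B 1, y⟫ ∂(μ.map T) := by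
        rw [← hf3, lintegral_withDensity_eq_lintegral_mul _ hfm (hgm 3 _ _)]
        rfl
      rw [e1, e2, lintegral_map (hgm 3 _ _) hTm]
      refine lintegral_congr fun x => ?_
      rw [hin, hin]
    rw [h1]
    exact hC f g (B 0) (B 1) e hfm hg hB3

end Run7.h865.MY
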