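import Pool.Agent.Run7.h670.MY.StmD

/-! # Piece D_ROT of project MY (helper670), by helper865 -/

set_option autoImplicit false

open MeasureTheory Set
open scoped ENNReal RealInnerProductSpace

namespace Run7.h865.MY

open Pool.Agent.Run7.h670.MY

/-- the coordinates `(t, y)` of `V (n + 1)` -/
noncomputable def J (n : ℕ) (z : ℝ × V n) : V (n + 1) :=
  WithLp.toLp 2 ((MeasurableEquiv.piFinSuccAbove (fun _ : Fin (n + 1) => ℝ) 0).symm
    (z.1, WithLp.ofLp z.2))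

theorem J_zero (n : ℕ) (z : ℝ × V n) : J n z 0 = z.1 := by
  simp [J, MeasurableEquiv.piFinSuccAbove]

theorem J_succ (n : ℕ) (z : ℝ × V n) (i : Fin n) : J n z i.succ = z.2 i := by
  simp [J, MeasurableEquiv.piFinSuccAbove]

theorem J_norm (n : ℕ) (z : ℝ × V n) : ‖J n z‖ ^ 2 = z.1 ^ 2 + ‖z.2‖ ^ 2 := by
  rw [EuclideanSpace.real_norm_sq_eq, EuclideanSpace.real_norm_sq_eq, Fin.sum_univ_succ, J_zero]
  simp only [J_succ]

theorem J_mp (n : ℕ) : MeasurePreserving (J n) volume volume := by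
  have h1 : MeasurePreserving (fun z : ℝ × V n => (z.1, (WithLp.ofLp z.2 : Fin n → ℝ)))
      volume volume :=
    (MeasurePreserving.id volume).prod (PiLp.volume_preserving_ofLp (Fin n))
  have h2 := (volume_preserving_piFinSuccAbove (fun _ : Fin (n + 1) => ℝ) 0).symm
  have h3 := PiLp.volume_preserving_toLp (Fin (n + 1))
  exact h3.comp (h2.comp h1)

theorem gauss_one : ∫⁻ t : ℝ, ENNReal.ofReal (Real.exp (-t ^ 2)) = ENNReal.ofReal √Real.pi := by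
  have h := integral_gaussian 1
  have hi := integrable_exp_neg_mul_sq (b := 1) one_pos
  rw [← ofReal_integral_eq_lintegral_ofReal]
  · congr 1
    rw [div_one] at h
    rw [← h]
    congr 1
    funext t
    rw [neg_mul, one_mul]
  · refine hi.congr (ae_of_all _ fun t => ?_)
    simp
  · exact ae_of_all _ fun t => (Real.exp_pos _).le

theorem t_D_ROT : D_ROT := by
  intro n _ v hv
  have hv0 : 0 < ‖v‖ := norm_pos_iff.mpr hv
  -- a basis starting with the direction of `v`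
  obtain ⟨B, hB⟩ : ∃ B : OrthonormalBasis (Fin (n + 1)) ℝ (V (n + 1)), B 0 = (‖v‖⁻¹ : ℝ) • v := by
    have hc : Module.finrank ℝ (V (n + 1)) = Fintype.card (Fin (n + 1)) := by simp
    have ho : Orthonormal ℝ (Set.domRestrict ({0} : Set (Fin (n + 1)))
        (fun _ : Fin (n + 1) => (‖v‖⁻¹ : ℝ) • v)) := by
      constructor
      · intro i
        change ‖(‖v‖⁻¹ : ℝ) • v‖ = 1
        rw [norm_smul, norm_inv, norm_norm, inv_mul_cancel₀ hv0.ne']
      · intro i j hij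
        exact absurd (Subtype.ext (i.2.trans j.2.symm)) hij
    obtain ⟨B, hB⟩ := ho.exists_orthonormalBasis_extension_of_card_eq hc
    exact ⟨B, hB 0 rfl⟩
  -- the integrand in the new coordinates
  obtain ⟨F, hF⟩ : ∃ F : V (n + 1) → ℝ≥0∞, F = fun w =>
      ENNReal.ofReal (Real.exp (-‖w‖ ^ 2) * (‖w‖ ^ 2 * ‖v‖ ^ 2 - (‖v‖ * w 0) ^ 2)⁻¹) := ⟨_, rfl⟩
  have hFm : Measurable F := by
    rw [hF]
    fun_prop
  have h1 : ∀ g : V (n + 1),
      ENNReal.ofReal (Real.exp (-‖g‖ ^ 2) * (‖g‖ ^ 2 * ‖v‖ ^ 2 - ⟪v, g⟫ ^ 2)⁻¹) = F (B.repr g) := by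
    intro g
    have h2 : ⟪v, g⟫ = ‖v‖ * (B.repr g) 0 := by
      rw [OrthonormalBasis.repr_apply_apply, hB, inner_smul_left]
      simp only [conj_trivial]
      rw [← mul_assoc, mul_inv_cancel₀ hv0.ne', one_mul]
    rw [hF]
    simp only
    rw [LinearIsometryEquiv.norm_map, h2]
  have h2 : ∫⁻ g : V (n + 1),
      ENNReal.ofReal (Real.exp (-‖g‖ ^ 2) * (‖g‖ ^ 2 * ‖v‖ ^ 2 - ⟪v, g⟫ ^ 2)⁻¹) = ∫⁻ w, F w := by
    rw [← B.measurePreserving_repr.lintegral_comp hFm]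
    exact lintegral_congr h1
  have h3 : ∫⁻ w, F w = ∫⁻ t : ℝ, ∫⁻ y : V n, F (J n (t, y)) := by
    rw [← (J_mp n).lintegral_comp hFm, Measure.volume_eq_prod]
    exact lintegral_prod _ (hFm.comp (J_mp n).measurable).aemeasurable
  have h4 : ∀ (t : ℝ) (y : V n), F (J n (t, y)) =
      ENNReal.ofReal (‖v‖ ^ 2)⁻¹ * ENNReal.ofReal (Real.exp (-t ^ 2)) *
        ENNReal.ofReal (Real.exp (-‖y‖ ^ 2) * (‖y‖ ^ 2)⁻¹) := by
    intro t y
    rw [hF]
    simp only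
    rw [J_norm, J_zero, ← ENNReal.ofReal_mul (by positivity), ← ENNReal.ofReal_mul (by positivity)]
    congr 1
    have e1 : (t ^ 2 + ‖y‖ ^ 2) * ‖v‖ ^ 2 - (‖v‖ * t) ^ 2 = ‖v‖ ^ 2 * ‖y‖ ^ 2 := by ring
    have e2 : -(t ^ 2 + ‖y‖ ^ 2) = -t ^ 2 + -‖y‖ ^ 2 := by ring
    rw [e1, e2, Real.exp_add, mul_inv]
    ring
  rw [h2, h3]
  simp only [h4]
  have h5 : ∀ t : ℝ, ∫⁻ y : V n, ENNReal.ofReal (‖v‖ ^ 2)⁻¹ * ENNReal.ofReal (Real.exp (-t ^ 2)) *
        ENNReal.ofReal (Real.exp (-‖y‖ ^ 2) * (‖y‖ ^ 2)⁻¹) =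
      ENNReal.ofReal (‖v‖ ^ 2)⁻¹ * (ENNReal.ofReal (Real.exp (-t ^ 2)) * KK n) := by
    intro t
    rw [lintegral_const_mul _ (by fun_prop), KK, mul_assoc]
  simp only [h5]
  rw [lintegral_const_mul _ (by fun_prop), lintegral_mul_const _ (by fun_prop), gauss_one]

end Run7.h865.MY
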